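import Pool.Agent.Y462.AR.Tool

/-!
# Artin groups: general linear groups, and the label `2`

Owner helper383 (for helper462).
-/

set_option autoImplicit false

namespace Pool.Agent.Y383.AR

open Pool.Agent.Y462.AR
open Pool.Agent.Y462.SS (Closed)

/-- conjugation by a linear equivalence, as a homomorphism -/
def conjHom {M N : Type} [AddCommGroup M] [AddCommGroup N] (e : M ≃ₗ[ℤ] N) :
    (M ≃ₗ[ℤ] M) →* (N ≃ₗ[ℤ] N) where
  toFun f := (e.symm.trans f).trans e
  map_one' := by
    ext x
    simp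
  map_mul' f g := by
    ext x
    simp

theorem conjHom_injective {M N : Type} [AddCommGroup M] [AddCommGroup N] (e : M ≃ₗ[ℤ] N) :
    Function.Injective (conjHom e) := by
  intro f g h
  ext x
  have h1 := DFunLike.congr_fun h (e x)
  simpa [conjHom] using h1

theorem t_cgl : S_CGL := by
  intro C hC h V _ _
  let e : (Option V → ℤ) ≃ₗ[ℤ] (Fin (Fintype.card (Option V)) → ℤ) :=
    LinearEquiv.funCongrLeft ℤ ℤ (Fintype.equivFin (Option V)).symm
  let E : ((Fin (Fintype.card (Option V)) → ℤ) ≃ₗ[ℤ] (Fin (Fintype.card (Option V)) → ℤ)) →*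
      Matrix.GeneralLinearGroup (Fin (Fintype.card (Option V))) ℤ :=
    ((LinearMap.GeneralLinearGroup.generalLinearEquiv ℤ
      (Fin (Fintype.card (Option V)) → ℤ)).symm.trans
        (Matrix.GeneralLinearGroup.toLin (n := Fin (Fintype.card (Option V)))
          (R := ℤ)).symm).toMonoidHom
  refine hC.of_injective _ _ (E.comp (conjHom e)) ?_ (h _)
  rw [MonoidHom.coe_comp]
  exact (MulEquiv.injective _).comp (conjHom_injective e)

theorem t_di2 : S_DI2 := by
  intro g
  have hc : Commute (gen (fun _ _ : Bool => 2) false) (gen (fun _ _ : Bool => 2) true) := by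
    have h := t_rel Bool (fun _ _ => 2) false true (by norm_num)
    simpa [alt, Commute, SemiconjBy] using h
  let S : Subgroup (D 2) :=
    { carrier := {x | ∃ p q : ℤ, x = gen _ false ^ p * gen _ true ^ q}
      one_mem' := ⟨0, 0, by simp⟩
      mul_mem' := by
        rintro _ _ ⟨p, q, rfl⟩ ⟨r, s, rfl⟩
        refine ⟨p + r, q + s, ?_⟩
        rw [zpow_add, zpow_add, mul_assoc, mul_assoc,
          ← mul_assoc (gen (fun _ _ : Bool => 2) true ^ q),
          ← (hc.zpow_zpow r q).eq, mul_assoc]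
      inv_mem' := by
        rintro _ ⟨p, q, rfl⟩
        refine ⟨-p, -q, ?_⟩
        rw [mul_inv_rev, ← zpow_neg, ← zpow_neg, (hc.zpow_zpow (-p) (-q)).eq] }
  refine mem_of_gen S ?_ g
  intro s
  cases s
  · exact ⟨1, 0, by simp⟩
  · exact ⟨0, 1, by simp⟩

theorem t_cz (C : ∀ (G : Type) [Group G], Prop) (hC : Closed C)
    (_h : ∀ n : ℕ, C (Matrix.GeneralLinearGroup (Fin n) ℤ)) : C (Multiplicative ℤ) :=
  hC.int

end Pool.Agent.Y383.AR
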